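import Pool.Agent.Lead.Ont

namespace Pool.Agent.Results.MP_36ff06_lc.Q1

open Pool.Agent.Lead.Mod Pool.Agent.Lead.Mod.Fm

/-- Grzegorczyk's logic. -/
def Grz : Set Fm := Ext {imp (box (imp (box (imp (var 0) (box (var 0)))) (var 0))) (var 0)}

lemma hN : Normal Grz := ext_normal _

lemma grz (a : Fm) : imp (box (imp (box (imp a (box a))) a)) a ∈ Grz := by
  simpa [Fm.subst] using hN.subst (fun _ => a) _ (mem_ext (Set.mem_singleton _))

lemma hT (a : Fm) : imp (box a) a ∈ Grz :=
  tc2 hN (grz a) (dRM hN (a := a) (b := imp (box (imp a (box a))) a)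
    (hN.taut _ fun v h0 h1 => by simp only [h1]; tauto)) fun v h0 h1 => by
    simp only [h1]; tauto

lemma h4 (a : Fm) : imp (box a) (box (box a)) ∈ Grz := by
  set ψ := Fm.and a (imp (box a) (box (box a))) with hψ
  have h1 : imp (box ψ) (box a) ∈ Grz :=
    dRM hN (hN.taut _ fun v h0 h1 => by simp only [hψ, Fm.and, neg, h1]; tauto)
  have h2 : imp (imp ψ (box ψ)) (imp a (box a)) ∈ Grz :=
    tc1 hN h1 fun v h0 h1 => by
      have : v ψ ↔ v a ∧ (v (box a) → v (box (box a))) := by
        simp only [hψ, Fm.and, neg, h1]; tauto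
      simp only [h1, this]; tauto
  have h3 : imp a (imp (box (imp ψ (box ψ))) ψ) ∈ Grz :=
    tc1 hN (dRM2 hN h2) fun v h0 h1 => by
      have : v ψ ↔ v a ∧ (v (box a) → v (box (box a))) := by
        simp only [hψ, Fm.and, neg, h1]; tauto
      simp only [h1, this]; tauto
  exact tc2 hN (dRM hN h3) (grz ψ) fun v h0 h1 => by
    have : v ψ ↔ v a ∧ (v (box a) → v (box (box a))) := by
      simp only [hψ, Fm.and, neg, h1]; tauto
    simp only [h1, this]; tauto

theorem result (p : ℕ → ℕ) (hp : Function.Injective p) :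
    ∃ F : Fm, sig F ⊆ {0, 1} ∧ ∀ φ : LF, L1 φ ↔ φ.tr F p ∈ Grz := by
  refine ⟨FB, sig_FB, fun φ => ⟨ont_sound hN hT h4 p,
    ont_faithful (fun x y => x = none ∨ x = y) (frame_ext _ ?_) (fun V a => ?_) p hp⟩⟩
  · rintro _ rfl V w H
    simp only [sat_box, sat_imp, sat_var] at H ⊢
    have key : ∀ c, (w = none ∨ w = some c) → V 0 (some c) := by
      intro c hc
      refine H _ hc ?_
      rintro _ (h | rfl) h' _ (h'' | rfl)
      · cases h
      · cases h
      · cases h''
      · exact h'
    cases w with
    | some c => exact key c (Or.inr rfl)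
    | none =>
      refine H _ (Or.inl rfl) fun v _ hv u _ => ?_
      cases u with
      | some c => exact key c (Or.inl rfl)
      | none =>
        rename_i h
        rcases h with rfl | rfl <;> exact hv
  · simp only [bb, sat_box, sat_dia]
    constructor
    · intro H c
      obtain ⟨v, hv, h⟩ := H (some c) (Or.inl trivial)
      obtain rfl : some c = v := by simpa using hv
      exact h _ (Or.inr rfl)
    · intro H v _
      refine ⟨some (v.getD 0), by cases v <;> simp, fun u hu => ?_⟩
      obtain rfl : some (v.getD 0) = u := by simpa using hu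
      exact H _

end Pool.Agent.Results.MP_36ff06_lc.Q1
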